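import Pool.Agent.R604.RN.T3

namespace R604.RN
open R877.RN Matrix

theorem quad {N : ℕ} (F : Fin N → Fin N → Fin N → ℝ) (x : Fin N → ℝ) :
    ∑ i, x i * ∑ j, (∑ p, ∑ k, F i p k * F j p k) * x j = ∑ p, ∑ k, (∑ i, x i * F i p k)^2 := by
  have hr : ∀ p k, (∑ i, x i * F i p k)^2 = ∑ i, ∑ j, x i * F i p k * (x j * F j p k) := by
    intro p k
    rw [pow_two, Finset.sum_mul_sum]
  have hl : ∀ i, x i * ∑ j, (∑ p, ∑ k, F i p k * F j p k) * x j
      = ∑ j, ∑ p, ∑ k, x i * F i p k * (x j * F j p k) := by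
    intro i
    rw [Finset.mul_sum]
    refine Finset.sum_congr rfl fun j _ => ?_
    rw [Finset.sum_mul, Finset.mul_sum]
    refine Finset.sum_congr rfl fun p _ => ?_
    rw [Finset.sum_mul, Finset.mul_sum]
    exact Finset.sum_congr rfl fun k _ => by ring
  simp only [hr, hl]
  symm
  calc ∑ p, ∑ k, ∑ i, ∑ j, x i * F i p k * (x j * F j p k)
      = ∑ p, ∑ i, ∑ k, ∑ j, x i * F i p k * (x j * F j p k) :=
        Finset.sum_congr rfl fun p _ => Finset.sum_comm
    _ = ∑ p, ∑ i, ∑ j, ∑ k, x i * F i p k * (x j * F j p k) :=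
        Finset.sum_congr rfl fun p _ => Finset.sum_congr rfl fun i _ => Finset.sum_comm
    _ = ∑ i, ∑ p, ∑ j, ∑ k, x i * F i p k * (x j * F j p k) := Finset.sum_comm
    _ = ∑ i, ∑ j, ∑ p, ∑ k, x i * F i p k * (x j * F j p k) :=
        Finset.sum_congr rfl fun i _ => Finset.sum_comm

theorem comb {N : ℕ} (S T : Fin N → Fin N → ℝ) (x : Fin N → ℝ) (a b : ℝ) :
    ∑ i, x i * ∑ j, (a * S i j + b * T i j) * x j
      = a * ∑ i, x i * ∑ j, S i j * x j + b * ∑ i, x i * ∑ j, T i j * x j := by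
  have h : ∀ i, ∑ j, (a * S i j + b * T i j) * x j = a * ∑ j, S i j * x j + b * ∑ j, T i j * x j := by
    intro i
    rw [Finset.mul_sum, Finset.mul_sum, ← Finset.sum_add_distrib]
    exact Finset.sum_congr rfl fun j _ => by ring
  simp only [h]
  rw [Finset.mul_sum (f := fun i => x i * ∑ j, S i j * x j),
    Finset.mul_sum (f := fun i => x i * ∑ j, T i j * x j), ← Finset.sum_add_distrib]
  exact Finset.sum_congr rfl fun i _ => by ring

theorem qf_Mm {N : ℕ} (ν : Br N) (x : Fin N → ℝ) :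
    qf (Mm ν) x = -(1/2) * ∑ p, ∑ k, (∑ i, x i * ν i p k)^2
      + (1/4) * ∑ p, ∑ q, (∑ i, x i * ν p q i)^2 := by
  have h1 := quad (fun i p k => ν i p k) x
  have h2 := quad (fun i p q => ν p q i) x
  rw [← h1, ← h2]
  exact comb (fun i j => ∑ p, ∑ k, ν i p k * ν j p k) (fun i j => ∑ p, ∑ q, ν p q i * ν p q j) x
    (-(1/2)) (1/4)

theorem qf_add {N : ℕ} (A B : Mat N) (x : Fin N → ℝ) : qf (A + B) x = qf A x + qf B x := by
  simp [qf, add_mulVec, dotProduct_add]

theorem qf_sub {N : ℕ} (A B : Mat N) (x : Fin N → ℝ) : qf (A - B) x = qf A x - qf B x := by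
  simp [qf, sub_mulVec, dotProduct_sub]

theorem qf_smul {N : ℕ} (r : ℝ) (A : Mat N) (x : Fin N → ℝ) : qf (r • A) x = r * qf A x := by
  simp [qf, smul_mulVec, dotProduct_smul]

theorem RF_nil {N : ℕ} (ν : Br N) (x : Fin N → ℝ) (h1 : ∀ a, ∑ i, ν a i i = 0)
    (h2 : (adm ν x * adm ν x).trace = 0) : RF ν x = qf (Mm ν) x := by
  have h3 : ∑ i, ∑ k, (∑ p, x p * ν p i k) * (∑ p, x p * ν p k i) = 0 := by
    rw [← h2]
    simp only [Matrix.trace, Matrix.diag_apply, Matrix.mul_apply, adm]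
    rw [Finset.sum_comm]
  rw [qf_Mm, RF, h3]
  simp only [h1, zero_mul, Finset.sum_const_zero]
  ring

theorem ell_nil {N : ℕ} (ν : Br N) (A : Mat N) (x : Fin N → ℝ) (h1 : ∀ a, ∑ i, ν a i i = 0)
    (h2 : (A * adm ν x).trace = 0) :
    ell ν A x = - ∑ p, ∑ i, ∑ k, x p * ν p i k * A k i := by
  have h3 : (sy A * sy (adm ν x)).trace = (1/2) * ((A * adm ν x).trace + (Aᵀ * adm ν x).trace) := by
    have e1 : (A * (adm ν x)ᵀ).trace = (Aᵀ * adm ν x).trace := by
      rw [← Matrix.trace_transpose (A * (adm ν x)ᵀ), Matrix.transpose_mul, Matrix.transpose_transpose,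
        Matrix.trace_mul_comm]
    have e2 : (Aᵀ * (adm ν x)ᵀ).trace = (A * adm ν x).trace := by
      rw [← Matrix.transpose_mul, Matrix.trace_transpose, Matrix.trace_mul_comm]
    simp only [sy, Matrix.smul_mul, Matrix.mul_smul, Matrix.trace_smul, smul_eq_mul, Matrix.add_mul,
      Matrix.mul_add, Matrix.trace_add, e1, e2]
    ring
  have h4 : (Aᵀ * adm ν x).trace = ∑ p, ∑ i, ∑ k, x p * ν p i k * A k i := by
    simp only [Matrix.trace, Matrix.diag_apply, Matrix.mul_apply, adm, Matrix.transpose_apply,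
      Finset.mul_sum]
    calc ∑ i, ∑ k, ∑ p, A k i * (x p * ν p i k) = ∑ i, ∑ p, ∑ k, A k i * (x p * ν p i k) :=
          Finset.sum_congr rfl fun i _ => Finset.sum_comm
      _ = ∑ p, ∑ i, ∑ k, A k i * (x p * ν p i k) := Finset.sum_comm
      _ = _ := Finset.sum_congr rfl fun p _ => Finset.sum_congr rfl fun i _ =>
          Finset.sum_congr rfl fun k _ => by ring
  rw [ell, h3, h2, ← h4]
  simp only [h1, mul_zero, Finset.sum_const_zero]
  ring

end R604.RN

namespace R877.RN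
open Matrix R604.RN

theorem p_G2 (h1 : P_RIC) (h2 : P_LC) (h3 : P_EXT) : P_G2 := by
  intro g _ _ _ n Y K N β c s hnil hY hK hc hs hR
  have hs0 : Real.sqrt s ≠ 0 := (Real.sqrt_pos.2 hs).ne'
  have ht : (Real.sqrt s)⁻¹ ≠ 0 := inv_ne_zero hs0
  have ht2 : ((Real.sqrt s)⁻¹)^2 = 1/s := by
    rw [inv_pow, Real.sq_sqrt hs.le, one_div]
  obtain ⟨B, D, hB, hD, ho⟩ := h2 K (Option (Fin N)) (bas (fr β c hc) Y K (Real.sqrt s)⁻¹ hK ht hY)
  refine ⟨B, D, hB, hD, fun x hx => ?_⟩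
  have has : Asym (act c (muOf β)) := by
    intro i j k
    rw [← fr_bracket β c hc, ← fr_bracket β c hc, ← lie_skew, map_neg, Finsupp.coe_neg, Pi.neg_apply]
  rw [h1 K _ _ B D hB hD ho x, sc_bas (fr β c hc) Y K (Real.sqrt s)⁻¹ hK ht hY (act c (muOf β))
    (conj c (adOf β Y)) (fr_bracket β c hc) (fun i k => fr_ad β c hc Y i k), h3 N _ _ _ _ has]
  have hlow : ∀ v : n, ∀ k, ∀ m ∈ n.lcs (n : Type) k,
      ⁅(v : g), m⁆ ∈ n.lcs (n : Type) (k+1) := fun v k m hm => lower n v v.2 k m hm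
  have htr : ∀ (T : Module.End ℝ n), (LinearMap.toMatrix (fr β c hc) (fr β c hc) T).trace
      = LinearMap.trace ℝ n T := fun T => (LinearMap.trace_eq_matrix_trace ℝ (fr β c hc) T).symm
  have hH : ∀ a, ∑ i, act c (muOf β) a i i = 0 := by
    intro a
    have h := nilp n hnil (LieModule.toEnd ℝ g n (fr β c hc a : g)) (fun k m hm => hlow _ k m hm)
    rw [← htr, toM] at h
    rw [← h]
    simp only [Matrix.trace, Matrix.diag_apply, adOf]
    refine Finset.sum_congr rfl fun i _ => ?_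
    rw [← fr_bracket β c hc]
    rfl
  have hMM : ∀ y : Fin N → ℝ, (adm (act c (muOf β)) y * adm (act c (muOf β)) y).trace = 0 := by
    intro y
    rw [adm_fr β c hc, ← toM, ← LinearMap.toMatrix_mul, htr]
    refine nilp n hnil _ (fun k m hm => ?_)
    exact (n.lcs (n : Type) (k+1)).lie_mem (hlow _ k m hm)
  have hAM : ∀ y : Fin N → ℝ, (conj c (adOf β Y) * adm (act c (muOf β)) y).trace = 0 := by
    intro y
    rw [adm_fr β c hc, conj_fr β c hc, ← toM, ← toM, ← LinearMap.toMatrix_mul, htr]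
    refine nilp n hnil _ (fun k m hm => ?_)
    exact (n.lcs (n : Type) (k+1)).lie_mem (hlow _ k m hm)
  rw [RF_nil _ _ hH (hMM _), ell_nil _ _ _ hH (hAM _)]
  set X : Option (Fin N) → ℝ := fun i => (bas (fr β c hc) Y K (Real.sqrt s)⁻¹ hK ht hY).repr x i with hX
  have hX0 : X ≠ 0 := by
    intro h0
    apply hx
    apply (bas (fr β c hc) Y K (Real.sqrt s)⁻¹ hK ht hY).repr.injective
    ext i
    rw [map_zero]
    exact congrFun h0 i
  have hcond : (fun i => X (some i)) ≠ 0 ∨ X none * (Real.sqrt s)⁻¹ ≠ 0 := by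
    by_contra hcon
    rw [not_or, not_not, not_not] at hcon
    apply hX0
    funext i
    rcases i with _ | i
    · rcases mul_eq_zero.1 hcon.2 with h | h
      · exact h
      · exact absurd h ht
    · exact congrFun hcon.1 i
  have hfin := hR (fun i => X (some i)) (X none * (Real.sqrt s)⁻¹) hcond
  rw [qf_sub, qf_add, qf_smul, qf_smul] at hfin
  rw [qf_sub, qf_smul, qf_smul, ht2]
  rw [mul_pow, ht2] at hfin
  have e1 : (1/(2*s)) = (1/s) * (1/2) := by field_simp
  have e2 : (conj c (adOf β Y)).trace / s = (1/s) * (conj c (adOf β Y)).trace := by field_simp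
  rw [e1, e2] at hfin
  refine lt_of_eq_of_lt ?_ hfin
  ring

end R877.RN
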