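import Pool.Agent.R877.RN.Stm2

namespace R604.RN
open R877.RN Matrix

section nil
variable {g : Type} [LieRing g] [LieAlgebra ℝ g] [FiniteDimensional ℝ g] (n : LieIdeal ℝ g)

theorem lcs_bot (h : LieRing.IsNilpotent n) : ∃ k, (n.lcs (n : Type) k) = ⊥ := by
  obtain ⟨k, hk⟩ := (LieModule.isNilpotent_iff ℝ n n).1 h
  refine ⟨k, ?_⟩
  have := LieIdeal.coe_lcs_eq (R := ℝ) (L := g) (I := n) (M := n) (k := k)
  apply LieSubmodule.toSubmodule_injective
  rw [this]
  exact congrArg (LieSubmodule.toSubmodule) hk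

theorem lower (x : g) (hx : x ∈ n) (k : ℕ) (m : n) (hm : m ∈ n.lcs (n : Type) k) :
    ⁅x, m⁆ ∈ n.lcs (n : Type) (k+1) := by
  rw [LieIdeal.lcs_succ]
  exact LieSubmodule.lie_mem_lie hx hm

theorem nilp (h : LieRing.IsNilpotent n) (T : Module.End ℝ n)
    (hT : ∀ k, ∀ m ∈ n.lcs (n : Type) k, T m ∈ n.lcs (n : Type) (k+1)) : LinearMap.trace ℝ n T = 0 := by
  obtain ⟨K, hK⟩ := lcs_bot n h
  have h1 : ∀ k, ∀ m, (T^k) m ∈ n.lcs (n : Type) k := by
    intro k
    induction k with
    | zero => intro m; simp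
    | succ k ih =>
      intro m
      rw [pow_succ', Module.End.mul_apply]
      exact hT k _ (ih m)
  have h2 : IsNilpotent T := by
    refine ⟨K, ?_⟩
    ext m
    have := h1 K m
    rw [hK] at this
    simpa using this
  exact (LinearMap.isNilpotent_trace_of_isNilpotent h2).eq_zero

end nil
end R604.RN
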