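import Pool.Agent.R604.RN.T1

namespace R604.RN
open R877.RN Matrix

section frame
variable {g : Type} [LieRing g] [LieAlgebra ℝ g] {n : LieIdeal ℝ g} {N : ℕ}

/-- coordinates in the frame -/
noncomputable def eqv (β : Module.Basis (Fin N) ℝ n) (c : Mat N) (hc : IsUnit c.det) :
    n ≃ₗ[ℝ] (Fin N → ℝ) :=
  β.equivFun.trans (Matrix.toLinearEquiv' c (Matrix.invertibleOfIsUnitDet c hc))

/-- the frame -/
noncomputable def fr (β : Module.Basis (Fin N) ℝ n) (c : Mat N) (hc : IsUnit c.det) :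
    Module.Basis (Fin N) ℝ n := Module.Basis.ofEquivFun (eqv β c hc)

variable (β : Module.Basis (Fin N) ℝ n) (c : Mat N) (hc : IsUnit c.det)

theorem fr_repr (v : n) (k : Fin N) : (fr β c hc).repr v k = ∑ r, c k r * β.repr v r := by
  have h : (fr β c hc).repr v k = (c *ᵥ (⇑(β.repr v))) k := by
    simp only [fr, eqv, Module.Basis.ofEquivFun_repr_apply, LinearEquiv.trans_apply]
    rfl
  rw [h]
  rfl

theorem fr_apply (j : Fin N) : fr β c hc j = ∑ i, c⁻¹ i j • β i := by
  apply (fr β c hc).repr.injective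
  ext k
  rw [Module.Basis.repr_self, fr_repr]
  have h1 : ∀ r, β.repr (∑ i, c⁻¹ i j • β i) r = c⁻¹ r j := by
    intro r
    simp [Finsupp.single_apply]
  simp only [h1]
  have h2 : (c * c⁻¹) k j = (1 : Mat N) k j := by rw [Matrix.mul_nonsing_inv c hc]
  rw [Matrix.mul_apply, Matrix.one_apply] at h2
  rw [h2, Finsupp.single_apply]
  simp only [eq_comm]

theorem fr_bracket (i j k : Fin N) :
    (fr β c hc).repr ⁅fr β c hc i, fr β c hc j⁆ k = act c (muOf β) i j k := by
  rw [fr_repr, fr_apply, fr_apply]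
  have h : ∀ r, β.repr ⁅∑ p, c⁻¹ p i • β p, ∑ q, c⁻¹ q j • β q⁆ r
      = ∑ p, ∑ q, c⁻¹ p i * (c⁻¹ q j * muOf β p q r) := by
    intro r
    rw [sum_lie]
    simp only [lie_sum, map_sum, Finsupp.coe_finsetSum, Finset.sum_apply, smul_lie, lie_smul,
      map_smul, Finsupp.coe_smul, Pi.smul_apply, smul_eq_mul, muOf]
    exact Finset.sum_congr rfl fun p _ => Finset.sum_congr rfl fun q _ => by ring
  simp only [h, act, Finset.mul_sum]
  rw [Finset.sum_comm]
  refine Finset.sum_congr rfl fun p _ => ?_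
  rw [Finset.sum_comm]
  refine Finset.sum_congr rfl fun q _ => ?_
  refine Finset.sum_congr rfl fun r _ => ?_
  ring

theorem fr_ad (y : g) (i k : Fin N) :
    (fr β c hc).repr ⁅y, fr β c hc i⁆ k = conj c (adOf β y) k i := by
  rw [fr_repr, fr_apply]
  have h : ∀ r, β.repr ⁅y, ∑ p, c⁻¹ p i • β p⁆ r = ∑ p, c⁻¹ p i * adOf β y r p := by
    intro r
    simp only [lie_sum, map_sum, Finsupp.coe_finsetSum, Finset.sum_apply, lie_smul,
      map_smul, Finsupp.coe_smul, Pi.smul_apply, smul_eq_mul, adOf]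
  simp only [h, conj, Matrix.mul_apply, Finset.mul_sum, Finset.sum_mul]
  rw [Finset.sum_comm]
  refine Finset.sum_congr rfl fun p _ => ?_
  refine Finset.sum_congr rfl fun r _ => ?_
  ring

theorem toM (f : Module.Basis (Fin N) ℝ n) (y : g) :
    LinearMap.toMatrix f f (LieModule.toEnd ℝ g n y) = adOf f y := by
  ext k i
  rw [LinearMap.toMatrix_apply]
  rfl

theorem adm_fr (x : Fin N → ℝ) :
    adm (act c (muOf β)) x = adOf (fr β c hc) ((∑ p, x p • fr β c hc p : n) : g) := by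
  ext k i
  simp only [adm, adOf]
  have h : ⁅((∑ p, x p • fr β c hc p : n) : g), fr β c hc i⁆ = ∑ p, x p • ⁅fr β c hc p, fr β c hc i⁆ := by
    have : ⁅((∑ p, x p • fr β c hc p : n) : g), fr β c hc i⁆
        = ⁅(∑ p, x p • fr β c hc p : n), fr β c hc i⁆ := rfl
    rw [this, sum_lie]
    simp only [smul_lie]
  rw [h]
  simp only [map_sum, Finsupp.coe_finsetSum, Finset.sum_apply, map_smul, Finsupp.coe_smul,
    Pi.smul_apply, smul_eq_mul, fr_bracket]

theorem conj_fr (y : g) : conj c (adOf β y) = adOf (fr β c hc) y := by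
  ext k i
  rw [← fr_ad β c hc]
  rfl

end frame
end R604.RN
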