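import Pool.Agent.R604.RN.T2

namespace R604.RN
open R877.RN Matrix

section base
variable {g : Type} [LieRing g] [LieAlgebra ℝ g] {n : LieIdeal ℝ g} {N : ℕ}
  (f : Module.Basis (Fin N) ℝ n) (Y : g) (K : LieSubalgebra ℝ g) (t : ℝ)

theorem memY (hK : K.toSubmodule = Submodule.span ℝ {Y} ⊔ n.toSubmodule) : t • Y ∈ K := by
  have : t • Y ∈ K.toSubmodule := by
    rw [hK]
    exact Submodule.mem_sup_left (Submodule.smul_mem _ _ (Submodule.mem_span_singleton_self Y))
  exact this

theorem memn (hK : K.toSubmodule = Submodule.span ℝ {Y} ⊔ n.toSubmodule) (m : n) : (m : g) ∈ K := by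
  have : (m : g) ∈ K.toSubmodule := by
    rw [hK]
    exact Submodule.mem_sup_right m.2
  exact this

/-- the family -/
noncomputable def fam (hK : K.toSubmodule = Submodule.span ℝ {Y} ⊔ n.toSubmodule) : Option (Fin N) → K :=
  fun o => Option.casesOn' o ⟨t • Y, memY Y K t hK⟩ fun j => ⟨(f j : g), memn Y K hK (f j)⟩

theorem sum_fam (hK : K.toSubmodule = Submodule.span ℝ {Y} ⊔ n.toSubmodule) (m : n) :
    (⟨(m : g), memn Y K hK m⟩ : K) = ∑ k, f.repr m k • fam f Y K t hK (some k) := by
  apply Subtype.ext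
  have h : (m : g) = ((∑ k, f.repr m k • f k : n) : g) := by rw [f.sum_repr m]
  have h2 : ((∑ k, f.repr m k • fam f Y K t hK (some k) : K) : g)
      = ∑ k, f.repr m k • (f k : g) := by
    have : ∀ (s : Finset (Fin N)), ((∑ k ∈ s, f.repr m k • fam f Y K t hK (some k) : K) : g)
      = ∑ k ∈ s, f.repr m k • (f k : g) := by
      intro s
      induction s using Finset.induction_on with
      | empty => simp
      | insert a s ha ih =>
        rw [Finset.sum_insert ha, Finset.sum_insert ha, ← ih]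
        rfl
    exact this _
  have h3 : ((∑ k, f.repr m k • f k : n) : g) = ∑ k, f.repr m k • (f k : g) := by
    have : ∀ (s : Finset (Fin N)), ((∑ k ∈ s, f.repr m k • f k : n) : g)
      = ∑ k ∈ s, f.repr m k • (f k : g) := by
      intro s
      induction s using Finset.induction_on with
      | empty => simp
      | insert a s ha ih =>
        rw [Finset.sum_insert ha, Finset.sum_insert ha, ← ih]
        rfl
    exact this _
  show (m : g) = _
  rw [h2, ← h3]
  exact h

theorem indep (hK : K.toSubmodule = Submodule.span ℝ {Y} ⊔ n.toSubmodule) (ht : t ≠ 0)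
    (hY : Y ∉ n) : LinearIndependent ℝ (fam f Y K t hK) := by
  refine linearIndependent_option'.2 ⟨?_, ?_⟩
  · have h1 : LinearIndependent ℝ (fun j => (f j : g)) :=
      f.linearIndependent.map' n.toSubmodule.subtype (Submodule.ker_subtype _)
    exact LinearIndependent.of_comp K.toSubmodule.subtype h1
  · intro h
    have h2 : (⟨t • Y, memY Y K t hK⟩ : K) ∈ n.toSubmodule.comap K.toSubmodule.subtype := by
      refine (Submodule.span_le.2 ?_) h
      rintro _ ⟨j, rfl⟩
      exact (f j).2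
    have h3 : t • Y ∈ n := h2
    apply hY
    have := n.smul_mem (t⁻¹) h3
    rwa [smul_smul, inv_mul_cancel₀ ht, one_smul] at this

theorem spans (hK : K.toSubmodule = Submodule.span ℝ {Y} ⊔ n.toSubmodule) (ht : t ≠ 0) :
    ⊤ ≤ Submodule.span ℝ (Set.range (fam f Y K t hK)) := by
  rintro ⟨k, hk⟩ _
  have hk' : k ∈ Submodule.span ℝ {Y} ⊔ n.toSubmodule := by rw [← hK]; exact hk
  obtain ⟨y, hy, m, hm, rfl⟩ := Submodule.mem_sup.1 hk'
  obtain ⟨a, rfl⟩ := Submodule.mem_span_singleton.1 hy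
  have h1 : (⟨a • Y + m, hk⟩ : K) = (a * t⁻¹) • fam f Y K t hK none
      + (⟨((⟨m, hm⟩ : n) : g), memn Y K hK ⟨m, hm⟩⟩ : K) := by
    apply Subtype.ext
    show a • Y + m = (a * t⁻¹) • (t • Y) + m
    rw [smul_smul, mul_assoc, inv_mul_cancel₀ ht, mul_one]
  rw [h1, sum_fam f Y K t hK ⟨m, hm⟩]
  refine Submodule.add_mem _ (Submodule.smul_mem _ _ (Submodule.subset_span ⟨none, rfl⟩)) ?_
  exact Submodule.sum_mem _ fun k _ => Submodule.smul_mem _ _ (Submodule.subset_span ⟨some k, rfl⟩)

/-- the basis of `K` -/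
noncomputable def bas (hK : K.toSubmodule = Submodule.span ℝ {Y} ⊔ n.toSubmodule) (ht : t ≠ 0)
    (hY : Y ∉ n) : Module.Basis (Option (Fin N)) ℝ K :=
  Module.Basis.mk (indep f Y K t hK ht hY) (spans f Y K t hK ht)

variable (hK : K.toSubmodule = Submodule.span ℝ {Y} ⊔ n.toSubmodule) (ht : t ≠ 0) (hY : Y ∉ n)

theorem bas_apply (o : Option (Fin N)) : bas f Y K t hK ht hY o = fam f Y K t hK o := by
  simp [bas]

theorem repr_n (m : n) : (bas f Y K t hK ht hY).repr ⟨(m : g), memn Y K hK m⟩ none = 0 ∧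
    ∀ k, (bas f Y K t hK ht hY).repr ⟨(m : g), memn Y K hK m⟩ (some k) = f.repr m k := by
  rw [sum_fam f Y K t hK m]
  simp only [← bas_apply f Y K t hK ht hY, map_sum, map_smul, Module.Basis.repr_self,
    Finsupp.coe_finsetSum, Finset.sum_apply, Finsupp.coe_smul, Pi.smul_apply, smul_eq_mul,
    Finsupp.single_apply]
  constructor
  · simp
  · intro k
    simp

theorem sc_bas (ν : Br N) (A : Mat N) (hν : ∀ i j k, f.repr ⁅f i, f j⁆ k = ν i j k)
    (hA : ∀ i k, f.repr ⁅Y, f i⁆ k = A k i) :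
    sc (bas f Y K t hK ht hY) = extc ν A t := by
  funext i j k
  have hss : ∀ i j, ⁅bas f Y K t hK ht hY (some i), bas f Y K t hK ht hY (some j)⁆
      = ⟨((⁅f i, f j⁆ : n) : g), memn Y K hK _⟩ := by
    intro i j
    rw [bas_apply, bas_apply]
    rfl
  have hns : ∀ j, ⁅bas f Y K t hK ht hY none, bas f Y K t hK ht hY (some j)⁆
      = t • (⟨((⁅Y, f j⁆ : n) : g), memn Y K hK _⟩ : K) := by
    intro j
    rw [bas_apply, bas_apply]
    apply Subtype.ext
    show ⁅t • Y, (f j : g)⁆ = t • ⁅Y, (f j : g)⁆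
    rw [smul_lie]
  have hsn : ∀ j, ⁅bas f Y K t hK ht hY (some j), bas f Y K t hK ht hY none⁆
      = -(t • (⟨((⁅Y, f j⁆ : n) : g), memn Y K hK _⟩ : K)) := by
    intro j
    rw [← hns, lie_skew]
  rcases i with _ | i <;> rcases j with _ | j
  · rcases k with _ | k <;> simp [sc, extc]
  · rcases k with _ | k
    · simp only [sc, hns, map_smul, Finsupp.coe_smul, Pi.smul_apply, extc]
      rw [(repr_n f Y K t hK ht hY _).1]; simp
    · simp only [sc, hns, map_smul, Finsupp.coe_smul, Pi.smul_apply, extc]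
      rw [(repr_n f Y K t hK ht hY _).2, hA]; simp
  · rcases k with _ | k
    · simp only [sc, hsn, map_neg, map_smul, Finsupp.coe_neg, Pi.neg_apply, Finsupp.coe_smul,
        Pi.smul_apply, extc]
      rw [(repr_n f Y K t hK ht hY _).1]; simp
    · simp only [sc, hsn, map_neg, map_smul, Finsupp.coe_neg, Pi.neg_apply, Finsupp.coe_smul,
        Pi.smul_apply, extc]
      rw [(repr_n f Y K t hK ht hY _).2, hA]; simp
  · rcases k with _ | k
    · simp only [sc, hss, extc]
      rw [(repr_n f Y K t hK ht hY _).1]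
    · simp only [sc, hss, extc]
      rw [(repr_n f Y K t hK ht hY _).2, hν]

end base
end R604.RN
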